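import Pool.Agent.Run7.h113.GX.Gen
import Pool.Agent.R461.GC.G8

/-!
Central limit theorem and rate along powers for the error term of the divisor problem.
-/

set_option autoImplicit false

open MeasureTheory Filter Topology Set Real ProbabilityTheory
open scoped ENNReal
open Pool.Agent.H383.AP
open Pool.Agent.H387R2.Vor (Ed Del Dsum dv)
open Pool.Agent.H383.Div (E2 ad ad_zero wd wd_Wt vor Dx Ed_quad)
open Pool.Agent.H452R2.Win (Bdw SandW E2_SandW ad_Bdw2)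
open Pool.Agent.R461.GC (E2_meas)
open Run7.h113.CL (Lw)
open Pool.Agent.R306.GP (Ctx mK hmu_of)

namespace Run7.h113.GX

/-- the law of the divisor problem -/
theorem dv_gen : ∃ (ν : ProbabilityMeasure ℝ) (G : ℂ → ℂ),
    Differentiable ℂ G ∧ (∀ x : ℝ, 0 ≤ (G x).re ∧ (G x).im = 0) ∧
    (ν : Measure ℝ) = volume.withDensity (fun x : ℝ => ENNReal.ofReal (G x).re) ∧
    (∀ u v : ℝ, u < v → 0 < (ν : Measure ℝ) (Set.Ioo u v)) ∧
    ∫ x, x ∂(ν : Measure ℝ) = 0 ∧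
    HasSum (fun m : ℕ => (m.divisors.card : ℝ) ^ 2 / (4 * Real.pi ^ 2) * (m : ℝ) ^ (-(3 / 2) : ℝ)) (∫ x, x ^ 2 ∂(ν : Measure ℝ)) ∧
    Lw ad (Real.pi/4) ν ∧
    (∀ t : ℝ, Tendsto (fun K => mK ad (Real.pi/4) K t) atTop (𝓝 (charFun (ν : Measure ℝ) t))) ∧
    Ctx E2 ad (Real.pi/4) ∧ Run7.h113.MT.Cx2 E2 ad (Real.pi/4) := by
  classical
  obtain ⟨ν', k1, k2, k3, k4, k5, k6⟩ := gen_law ad_Bdw2 ad_zero wd_Wt (E2_SandW vor) E2_meas
  obtain ⟨α, hα0, hαt, hα⟩ := Pool.Agent.R373.NFI.generic2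
  have hP : ∀ n : ℕ, 0 < α ^ 2 / 4 * (n : ℝ) ^ 2 + α ^ 2 / 2 * n + α ^ 2 / 4 := fun n => by positivity
  obtain ⟨ν, G, h1, h2, h3, h4, h5, h6, -⟩ := Pool.Agent.H383.Div.distr3 vor (show 0 < α ^ 2 / 4 by positivity) hP
  have hsq : ∀ n : ℕ, √(α ^ 2 / 4 * (n : ℝ) ^ 2 + α ^ 2 / 2 * n + α ^ 2 / 4) = (α + n * α) / 2 := by
    intro n
    rw [show α ^ 2 / 4 * (n : ℝ) ^ 2 + α ^ 2 / 2 * n + α ^ 2 / 4 = ((α + n * α) / 2) ^ 2 by ring]
    exact Real.sqrt_sq (by positivity)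
  have hEn : ∀ n : ℕ, Dx (α ^ 2 / 4 * (n : ℝ) ^ 2 + α ^ 2 / 2 * n + α ^ 2 / 4) / (α ^ 2 / 4 * (n : ℝ) ^ 2 + α ^ 2 / 2 * n + α ^ 2 / 4) ^ (1 / 4 : ℝ) = E2 (α + n * α) := by
    intro n
    rw [← Ed_quad (hP n).le, hsq]
    rfl
  have hlim : ∀ f : ℝ → ℝ, Continuous f → (∃ C : ℝ, ∀ x : ℝ, |f x| ≤ C * (1 + x ^ 2)) →
      Tendsto (fun N : ℕ => (∑ n ∈ Finset.range N, f (E2 (α + n * α))) / (N:ℝ)) atTop (𝓝 (∫ x, f x ∂(ν : Measure ℝ))) := by
    intro f hf hC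
    rw [Metric.tendsto_atTop]
    intro ε hε
    obtain ⟨N₀, hN₀⟩ := h6 f hf hC 1 one_pos (ε / 2) (by linarith)
    refine ⟨N₀, fun N hN => ?_⟩
    have h10 := hN₀ N hN 0 (by
      rw [Nat.cast_zero, Real.zero_rpow (by norm_num)]
      exact Nat.cast_nonneg N)
    rw [Real.dist_eq]
    simp only [hEn, zero_add, ← Finset.range_eq_Ico] at h10
    linarith
  obtain ⟨C0, hC0, hS'⟩ := (E2_SandW vor).sand
  have hchar := hmu_of ad_Bdw2.Bd ad_zero wd_Wt hC0 hS' hα0 hαt α hlim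
  have hνν : ν = ν' := by
    apply Subtype.ext
    haveI : IsProbabilityMeasure (ν : Measure ℝ) := ν.2
    haveI : IsProbabilityMeasure (ν' : Measure ℝ) := ν'.2
    refine Measure.ext_of_charFun (μ := (ν : Measure ℝ)) (ν := (ν' : Measure ℝ)) ?_
    funext t
    exact tendsto_nhds_unique (hchar t) (k4 t)
  subst hνν
  refine ⟨ν, G, h1, h2, h3, h4, k1, ?_, k3, k4, k5, k6⟩
  convert k2 using 1
  funext m
  rcases Nat.eq_zero_or_pos m with rfl | hm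
  · rw [if_neg (by norm_num), Nat.cast_zero, Real.zero_rpow (by norm_num), mul_zero]
  · have hm0 : (0 : ℝ) < m := by exact_mod_cast hm
    rw [if_pos (by omega)]
    unfold ad dv
    have e1 : ((m : ℝ) ^ (-(3 / 4) : ℝ)) ^ 2 = (m : ℝ) ^ (-(3 / 2) : ℝ) := by
      rw [← Real.rpow_natCast, ← Real.rpow_mul hm0.le]
      norm_num
    have e2 : (√2 : ℝ) ^ 2 = 2 := Real.sq_sqrt (by norm_num)
    have hpi := Real.pi_ne_zero
    rw [mul_pow, mul_pow, e1, div_pow, mul_pow, e2, one_pow]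
    field_simp
    ring

/-- **central limit theorem and rate for the divisor problem** -/
theorem dv_clt : ∃ (ν : ProbabilityMeasure ℝ) (G : ℂ → ℂ),
    Differentiable ℂ G ∧ (∀ x : ℝ, 0 ≤ (G x).re ∧ (G x).im = 0) ∧
    (ν : Measure ℝ) = volume.withDensity (fun x : ℝ => ENNReal.ofReal (G x).re) ∧
    (∀ u v : ℝ, u < v → 0 < (ν : Measure ℝ) (Set.Ioo u v)) ∧
    (∀ F : Polynomial ℝ, Integrable (fun x => F.eval x) (ν : Measure ℝ)) ∧
    ∫ x, x ∂(ν : Measure ℝ) = 0 ∧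
    HasSum (fun m : ℕ => (m.divisors.card : ℝ) ^ 2 / (4 * Real.pi ^ 2) * (m : ℝ) ^ (-(3 / 2) : ℝ)) (∫ x, x ^ 2 ∂(ν : Measure ℝ)) ∧
      ∀ (a b : ℕ → ℝ) (δ : ℝ), 0 < δ → (∀ n, a n + δ ≤ a (n + 1)) → (∀ n, 0 < b n) → Monotone b →
        (∀ᵐ α : ℝ, 1 < α → ∀ F : Polynomial ℝ,
          Tendsto (fun M : ℕ => (∑ n ∈ Finset.range M, (F.eval (Del (b n * α ^ a n) / (b n * α ^ a n) ^ (1 / 4 : ℝ))
            - ∫ x, F.eval x ∂(ν : Measure ℝ))) / (√M * Real.log M ^ 2)) atTop (𝓝 0)) ∧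
        ∀ (F : Polynomial ℝ), 0 < F.natDegree → ∀ (m v : ℝ), m = ∫ x, F.eval x ∂(ν : Measure ℝ) →
          v = ∫ x, (F.eval x - m) ^ 2 ∂(ν : Measure ℝ) → 0 < v ∧
          ∀ A : Set ℝ, MeasurableSet A → A ⊆ Ioi 1 → volume A < ⊤ → ∀ x : ℝ,
            Tendsto (fun M : ℕ => volume.real {α | α ∈ A ∧
                ∑ n ∈ Finset.range M, (F.eval (Del (b n * α ^ a n) / (b n * α ^ a n) ^ (1 / 4 : ℝ)) - m) ≤ x * √(v * M)})
              atTop (𝓝 (volume.real A * (gaussianReal 0 1).real (Iic x))) := by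
  obtain ⟨ν, G, h1, h2, h3, h4, h5, h6, hL, -, hX, -⟩ := dv_gen
  refine ⟨ν, G, h1, h2, h3, h4, hL.int, h5, h6, fun a b δ hδ hg hb hbm => ?_⟩
  obtain ⟨g1, g2⟩ := gen_clt_x hL hX (show (0:ℝ) < 2 by norm_num) hδ hg hb hbm
  have e1 : ∀ α : ℝ, 1 < α → ∀ n : ℕ, E2 (2 * √(b n * α ^ a n)) =
      Del (b n * α ^ a n) / (b n * α ^ a n) ^ (1 / 4 : ℝ) := by
    intro α hα n
    have hx : 0 < b n * α ^ a n := mul_pos (hb n) (Real.rpow_pos_of_pos (by linarith) _)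
    set y := b n * α ^ a n with hy
    unfold E2 Ed
    rw [show 2 * √y / 2 = √y by ring, Real.sq_sqrt hx.le]
    congr 1
    rw [Real.sqrt_eq_rpow, Real.sqrt_eq_rpow, ← Real.rpow_mul hx.le]
    norm_num
  constructor
  · filter_upwards [g1] with α hα hα1 F
    have h3 := hα hα1 F
    simp only [e1 α hα1] at h3
    exact h3
  · intro F hF m v hm hv
    have hv0 : 0 < v := by
      have h7 := Run7.h113.CL.var_pos h4 hL.int hF
      rw [hv, var_eq hL.int F hm, hm]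
      exact h7
    refine ⟨hv0, fun A hA hA1 hAf x => ?_⟩
    have h3 := g2 F m v hm hv hv0 A hA hA1 hAf x
    refine h3.congr fun M => ?_
    congr 1
    ext α
    simp only [Set.mem_ofPred_eq]
    refine and_congr_right fun hα => ?_
    simp only [e1 α (hA1 hα)]

end Run7.h113.GX
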