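import Mathlib
import Pool.Agent.Run7.h113.CL.Main
import Pool.Agent.Run7.h113.MT.Main
import Pool.Agent.R373.NFI.Gen

/-!
The limit law along powers for every error term with a Voronoi sandwich, with the convergence of the means of the
polynomials and of the characteristic functions of the model polynomials.
-/

set_option autoImplicit false

open MeasureTheory Filter Topology Set Real ProbabilityTheory
open scoped ENNReal
open Pool.Agent.H383.Gen (U Bd)
open Pool.Agent.H383.GW (Wt Sand)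
open Pool.Agent.H452R2.Win (Bdw SandW)
open Pool.Agent.Y969.TM
open Pool.Agent.R306.GP
open Run7.h113.CL (Lw lw_of poly_growth rate_all clt_all)

namespace Run7.h113.GX

variable {E : ℝ → ℝ} {a : ℕ → ℝ} {φ κ₁ κ₂ : ℝ} {w : ℝ → ℂ}

/-- the generic law -/
theorem gen_law (haE : Bdw a) (ha0 : a 0 = 0) (hw : Wt w) (hS : SandW E a φ w κ₁ κ₂) (hEm : Measurable E) :
    ∃ ν : ProbabilityMeasure ℝ, ∫ x, x ∂(ν : Measure ℝ) = 0 ∧
      HasSum (fun m : ℕ => if 1 ≤ m then (a m) ^ 2 / 2 else 0) (∫ x, x ^ 2 ∂(ν : Measure ℝ)) ∧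
      Lw a φ ν ∧ (∀ t : ℝ, Tendsto (fun K => mK a φ K t) atTop (𝓝 (charFun (ν : Measure ℝ) t))) ∧
      Ctx E a φ ∧ Run7.h113.MT.Cx2 E a φ := by
  obtain ⟨ν, -, h2, h3, h4⟩ := Pool.Agent.R373.NFI.iid_gen haE ha0 hw hS hEm
  obtain ⟨C0, hC0, hS'⟩ := hS.sand
  have hX : Ctx E a φ := Ctx.of haE.Bd ha0 hw hC0 hS' hEm
  have hX2 : Run7.h113.MT.Cx2 E a φ := Run7.h113.MT.Cx2.of haE.Bd ha0 hw hC0 hS' hEm
  have g1 := h4 (fun n => (n:ℝ) + 1) (fun _ => 1) 1 one_pos (fun n => by push_cast; linarith) (fun _ => one_pos)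
    monotone_const
  have hSq : Sq (fun n : ℕ => (n:ℝ) + 1) (fun _ => 1) 1 :=
    ⟨one_pos, le_rfl, fun n => by
      have : (0:ℝ) ≤ n := Nat.cast_nonneg n
      show (1:ℝ) ≤ (n:ℝ) + 1
      linarith, fun n => by push_cast; linarith, fun _ => one_pos, monotone_const⟩
  have g2 := ae_exp (p := fun α => (∀ (k : ℕ) (p : Fin k → ℕ) (K : ℕ),
    Tendsto (fun N : ℕ => (∑ n ∈ Finset.range N, ∏ j : Fin k, ((U a φ (pj (fun n : ℕ => (n:ℝ) + 1) (fun _ => 1) n (Real.log α) j) K : ℝ) : ℂ) ^ (p j)) / (N:ℂ)) atTop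
      (𝓝 (∏ j, ZZ a φ (p j) K))) ∧
      (∀ (j : ℕ), ∀ ε : ℝ, 0 < ε → ∀ᶠ K : ℕ in atTop, ∀ᶠ N : ℕ in atTop,
      ∑ n ∈ Finset.range N, (E (pj (fun n : ℕ => (n:ℝ) + 1) (fun _ => 1) n (Real.log α) j) - U a φ (pj (fun n : ℕ => (n:ℝ) + 1) (fun _ => 1) n (Real.log α) j) K) ^ 2 ≤ ε * N))
      (by
        filter_upwards [mixed hSq a φ, good2_pos hX hSq] with y hy1 hy2 hy0
        rw [Real.log_exp]
        exact ⟨hy1 hy0, hy2 hy0⟩)
  have g3 : ∀ᵐ α ∂(volume.restrict (Ioi (1:ℝ))), Lw a φ ν ∧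
      ∀ t : ℝ, Tendsto (fun K => mK a φ K t) atTop (𝓝 (charFun (ν : Measure ℝ) t)) := by
    rw [ae_restrict_iff' measurableSet_Ioi]
    filter_upwards [g1, g2] with α ha1 ha2 hα
    have hf := ha1 hα
    obtain ⟨hm, hl⟩ := ha2 hα
    have hα0 : 0 < α := lt_trans one_pos hα
    have e1 : ∀ n : ℕ, (1:ℝ) * α ^ ((n:ℝ) + 1) * α ^ (0:ℕ) = pj (fun n : ℕ => (n:ℝ) + 1) (fun _ => 1) n (Real.log α) 0 := by
      intro n
      unfold pj pt
      rw [Real.rpow_def_of_pos hα0, mul_comm (Real.log α)]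
      simp
    have e5 : ∀ g : ℝ → ℝ, Continuous g →
        ∫ x, g (x 0) ∂(Measure.pi fun _ : Fin 1 => (ν : Measure ℝ)) = ∫ x, g x ∂(ν : Measure ℝ) := by
      intro g hg
      have h9 := (measurePreserving_eval (fun _ : Fin 1 => (ν : Measure ℝ)) 0)
      have h10 := integral_map (f := g) (μ := Measure.pi fun _ : Fin 1 => (ν : Measure ℝ))
        h9.measurable.aemeasurable hg.aestronglyMeasurable
      rw [h9.map_eq] at h10
      exact h10.symm
    constructor
    · refine lw_of (E := E) (q := fun n => pj (fun n : ℕ => (n:ℝ) + 1) (fun _ => 1) n (Real.log α) 0) haE.Bd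
        (fun r K => ?_) (hl 0) (fun f => ?_)
      · have := hm 1 (fun _ => r) K
        simpa using this
      · obtain ⟨C, p, hC⟩ := poly_growth f
        have hC0 : 0 ≤ C := by
          have h5 := hC 0
          have h6 := abs_nonneg (f.eval 0)
          have h7 : 0 ≤ C * (1 + |(0:ℝ)| ^ p) := h6.trans h5
          have h8 : 0 < 1 + |(0:ℝ)| ^ p := by positivity
          exact nonneg_of_mul_nonneg_left h7 h8
        have h6 := hf 1 (fun x => f.eval (x 0)) (by fun_prop) ⟨C, p, fun x => by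
          have h7 := hC (x 0)
          have h8 : |x 0| ^ p ≤ ‖x‖ ^ p := pow_le_pow_left₀ (abs_nonneg _) (norm_le_pi_norm x 0) p
          have h9 : C * (1 + |x 0| ^ p) ≤ C * (1 + ‖x‖ ^ p) := by gcongr
          linarith⟩
        have h9 := (measurePreserving_eval (fun _ : Fin 1 => (ν : Measure ℝ)) 0)
        refine ⟨?_, ?_⟩
        · have h11 := (h9.integrable_comp (g := fun x : ℝ => f.eval x) f.continuous.aestronglyMeasurable).mp h6.1
          exact h11
        · have h7 := h6.2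
          rw [e5 (fun x => f.eval x) f.continuous] at h7
          refine h7.congr fun N => ?_
          congr 1
          apply Finset.sum_congr rfl
          intro n _
          rw [← e1]
          rfl
    · intro t
      refine mK_conv (E := E) (q := fun n => pj (fun n : ℕ => (n:ℝ) + 1) (fun _ => 1) n (Real.log α) 0) t
        (fun p K => ?_) (hl 0) (char_of_law (fun f hfc hfb => ?_) t)
      · have := hm 1 (fun _ => p) K
        simpa using this
      · obtain ⟨C, hC⟩ := hfb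
        have hC0 : 0 ≤ C := by
          have h5 := hC 0
          have h6 := abs_nonneg (f 0)
          simp at h5
          linarith
        have h6 := (hf 1 (fun x => f (x 0)) (by fun_prop) ⟨C, 2, fun x => by
          have h7 := hC (x 0)
          have h8 : (x 0) ^ 2 ≤ ‖x‖ ^ 2 := by
            rw [← sq_abs]
            exact pow_le_pow_left₀ (abs_nonneg _) (norm_le_pi_norm x 0) 2
          have h9 : C * (1 + (x 0) ^ 2) ≤ C * (1 + ‖x‖ ^ 2) := by gcongr
          linarith⟩).2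
        rw [e5 f hfc] at h6
        refine h6.congr fun N => ?_
        congr 1
        apply Finset.sum_congr rfl
        intro n _
        rw [← e1]
        rfl
  have : (ae (volume.restrict (Ioi (1:ℝ)))).NeBot := ae_restrict_neBot.mpr (by simp)
  obtain ⟨α, hα⟩ := g3.exists
  exact ⟨ν, h2, h3, hα.1, hα.2, hX, hX2⟩

/-- the variance of a polynomial -/
lemma var_eq {ν : ProbabilityMeasure ℝ} (hi : ∀ f : Polynomial ℝ, Integrable (fun x => f.eval x) (ν : Measure ℝ))
    (f : Polynomial ℝ) {m : ℝ} (hm : m = ∫ x, f.eval x ∂(ν : Measure ℝ)) :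
    ∫ x, (f.eval x - m) ^ 2 ∂(ν : Measure ℝ) = (∫ x, f.eval x ^ 2 ∂(ν : Measure ℝ)) - m ^ 2 := by
  have e2 : ∀ x, (f.eval x - m) ^ 2 = ((f ^ 2).eval x - (2 * m) * f.eval x) + m ^ 2 := by
    intro x
    simp only [Polynomial.eval_pow]
    ring
  simp only [e2]
  have i1 : Integrable (fun x => (f ^ 2).eval x) (ν : Measure ℝ) := hi (f ^ 2)
  have i2 : Integrable (fun x => (2 * m) * f.eval x) (ν : Measure ℝ) := (hi f).const_mul _
  have i3 : Integrable (fun x => (f ^ 2).eval x - (2 * m) * f.eval x) (ν : Measure ℝ) := i1.sub i2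
  rw [integral_add i3 (integrable_const _), integral_sub i1 i2, integral_const_mul, ← hm]
  simp only [Polynomial.eval_pow, integral_const, probReal_univ, smul_eq_mul]
  ring

/-- the rate and the central limit theorem, in the scale of `x = R²` -/
theorem gen_clt_x {ν : ProbabilityMeasure ℝ} (hL : Lw a φ ν) (hX : Ctx E a φ) {c : ℝ} (hc : 0 < c)
    {av b : ℕ → ℝ} {δ : ℝ} (hδ : 0 < δ) (hg : ∀ n, av n + δ ≤ av (n + 1)) (hb : ∀ n, 0 < b n) (hbm : Monotone b) :
    (∀ᵐ α : ℝ, 1 < α → ∀ f : Polynomial ℝ,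
      Tendsto (fun N : ℕ => (∑ n ∈ Finset.range N, (f.eval (E (c * √(b n * α ^ av n))) - ∫ x, f.eval x ∂(ν : Measure ℝ))) /
        (√N * Real.log N ^ 2)) atTop (𝓝 0)) ∧
    ∀ (f : Polynomial ℝ) (m v : ℝ), m = ∫ x, f.eval x ∂(ν : Measure ℝ) →
      v = ∫ x, (f.eval x - m) ^ 2 ∂(ν : Measure ℝ) → 0 < v →
      ∀ A : Set ℝ, MeasurableSet A → A ⊆ Ioi 1 → volume A < ∞ → ∀ x : ℝ,
        Tendsto (fun N : ℕ => volume.real {α | α ∈ A ∧
            ∑ n ∈ Finset.range N, (f.eval (E (c * √(b n * α ^ av n))) - m) ≤ x * √(v * N)})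
          atTop (𝓝 (volume.real A * (gaussianReal 0 1).real (Iic x))) := by
  have hg' : ∀ n, av n / 2 + δ / 2 ≤ av (n + 1) / 2 := fun n => by
    have := hg n
    linarith
  have hb' : ∀ n, 0 < c * √(b n) := fun n => mul_pos hc (Real.sqrt_pos.2 (hb n))
  have hbm' : Monotone fun n => c * √(b n) :=
    fun i j hij => mul_le_mul_of_nonneg_left (Real.sqrt_le_sqrt (hbm hij)) hc.le
  have e1 : ∀ (α : ℝ), 1 < α → ∀ n : ℕ, c * √(b n) * α ^ (av n / 2) = c * √(b n * α ^ av n) := by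
    intro α hα n
    have hα0 : 0 < α := by linarith
    rw [Real.sqrt_mul (hb n).le, mul_assoc]
    congr 2
    rw [Real.sqrt_eq_rpow, ← Real.rpow_mul hα0.le]
    congr 1
    ring
  constructor
  · filter_upwards [rate_all hL hX (half_pos hδ) hg' hb' hbm'] with α hα hα1 f
    have h1 := hα hα1 f
    simp only [e1 α hα1] at h1
    exact h1
  · intro f m v hm hv hv0 A hA hA1 hAf x
    have hv' : v = (∫ x, f.eval x ^ 2 ∂(ν : Measure ℝ)) - m ^ 2 := by
      rw [hv]
      exact var_eq hL.int f hm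
    have h1 := clt_all hL hX (half_pos hδ) hg' hb' hbm' f hm hv' hv0 hA hA1 hAf x
    refine h1.congr fun N => ?_
    congr 1
    ext α
    simp only [Set.mem_ofPred_eq]
    refine and_congr_right fun hα => ?_
    simp only [e1 α (hA1 hα)]

end Run7.h113.GX
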