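import Mathlib
import Pool.Agent.Run7.h113.GX.Gen

/-!
The joint law of different error terms along dilated sequences (the proofs are those of `R306.GP` and `Run7.h113.MT`
with several error terms).
-/

set_option autoImplicit false

open MeasureTheory Filter Topology Set Real
open scoped ENNReal RealInnerProductSpace
open Pool.Agent.H469R2.NK (e norm_e e_add conj_e e_zero)
open Pool.Agent.H383.Gen (U Bd)
open Pool.Agent.H383.GW (Wt Sand)
open Pool.Agent.Y969.TM
open Pool.Agent.R306.GP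
open Run7.h113.MT

namespace Run7.h113.GX

variable {k : ℕ} {af : Fin k → ℕ → ℝ} {φ : Fin k → ℝ} {E : Fin k → ℝ → ℝ} {δ B : ℝ} {a b : Fin k → ℕ → ℝ}
  {μ : Fin k → ProbabilityMeasure ℝ}

/-- characteristic functions of the model polynomials -/
theorem charKm {q : ℕ → Fin k → ℝ} {K : ℕ} (hy : ∀ (p : Fin k → ℕ),
    Tendsto (fun N : ℕ => (∑ n ∈ Finset.range N, ∏ j : Fin k, ((U (af j) (φ j) (q n j) K : ℝ) : ℂ) ^ (p j)) / (N:ℂ)) atTop
      (𝓝 (∏ j, ZZ (af j) (φ j) (p j) K))) (t : Fin k → ℝ) :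
    Tendsto (fun N : ℕ => (∑ n ∈ Finset.range N, ∏ j, Complex.exp (Complex.I * (t j * U (af j) (φ j) (q n j) K : ℝ))) / (N:ℂ)) atTop
      (𝓝 (∏ j, mK (af j) (φ j) K (t j))) := by
  classical
  refine lim3 (G := fun L N => (∑ n ∈ Finset.range N, ∏ j, ∑ r ∈ Finset.range L,
    (Complex.I * (t j * U (af j) (φ j) (q n j) K : ℝ)) ^ r / (r.factorial : ℂ)) / (N:ℂ))
    (g := fun L => ∏ j, ∑ r ∈ Finset.range L, (Complex.I * t j) ^ r / (r.factorial : ℂ) * ZZ (af j) (φ j) r K) ?_ ?_ ?_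
  · intro L
    have h1 : ∀ n : ℕ, ∏ j, ∑ r ∈ Finset.range L, (Complex.I * (t j * U (af j) (φ j) (q n j) K : ℝ)) ^ r / (r.factorial : ℂ) =
        ∑ x ∈ Fintype.piFinset (fun _ : Fin k => Finset.range L),
          (∏ j, (Complex.I * t j) ^ (x j) / ((x j).factorial : ℂ)) * ∏ j : Fin k, ((U (af j) (φ j) (q n j) K : ℝ) : ℂ) ^ (x j) := by
      intro n
      rw [Finset.prod_univ_sum]
      apply Finset.sum_congr rfl
      intro x _
      rw [← Finset.prod_mul_distrib]
      apply Finset.prod_congr rfl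
      intro j _
      push_cast
      rw [← mul_assoc, mul_pow]
      ring
    have h2 : ∏ j, ∑ r ∈ Finset.range L, (Complex.I * t j) ^ r / (r.factorial : ℂ) * ZZ (af j) (φ j) r K =
        ∑ x ∈ Fintype.piFinset (fun _ : Fin k => Finset.range L),
          (∏ j, (Complex.I * t j) ^ (x j) / ((x j).factorial : ℂ)) * ∏ j, ZZ (af j) (φ j) (x j) K := by
      rw [Finset.prod_univ_sum]
      apply Finset.sum_congr rfl
      intro x _
      rw [← Finset.prod_mul_distrib]
    simp only [h1, h2]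
    have h3 : Tendsto (fun N : ℕ => ∑ x ∈ Fintype.piFinset (fun _ : Fin k => Finset.range L),
        (∏ j, (Complex.I * t j) ^ (x j) / ((x j).factorial : ℂ)) *
        ((∑ n ∈ Finset.range N, ∏ j : Fin k, ((U (af j) (φ j) (q n j) K : ℝ) : ℂ) ^ (x j)) / (N:ℂ))) atTop
        (𝓝 (∑ x ∈ Fintype.piFinset (fun _ : Fin k => Finset.range L),
          (∏ j, (Complex.I * t j) ^ (x j) / ((x j).factorial : ℂ)) * ∏ j, ZZ (af j) (φ j) (x j) K)) :=
      tendsto_finsetSum _ fun x _ => (hy x).const_mul _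
    refine h3.congr fun N => ?_
    rw [Finset.sum_comm, Finset.sum_div]
    apply Finset.sum_congr rfl
    intro x _
    rw [← Finset.mul_sum, mul_div_assoc]
  · exact tendsto_finsetProd _ fun j _ => mK_lim (af j) (φ j) K (t j)
  · intro ε hε
    -- uniform approximation of the exponential
    set A := ∑ j, AA (af j) K with hA
    have hA0 : 0 ≤ A := Finset.sum_nonneg fun _ _ => AA_nonneg _ _
    have hAj : ∀ j, AA (af j) K ≤ A := fun j => Finset.single_le_sum (f := fun j => AA (af j) K) (fun _ _ => AA_nonneg _ _) (Finset.mem_univ j)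
    set Tm := ∑ j, |t j| with hTm
    have hTj : ∀ j, |t j| ≤ Tm := fun j => Finset.single_le_sum (f := fun j => |t j|) (fun _ _ => abs_nonneg _) (Finset.mem_univ j)
    have hTm0 : 0 ≤ Tm := Finset.sum_nonneg fun _ _ => abs_nonneg _
    set B := Tm * A with hB
    have hB0 : 0 ≤ B := by positivity
    have h1 : Tendsto (fun L : ℕ => B ^ L / (L.factorial : ℝ) * 2) atTop (𝓝 0) := by
      have := (FloorSemiring.tendsto_pow_div_factorial_atTop B).mul_const 2
      simpa using this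
    set η := min 1 (ε / (2 ^ k * (k + 1))) with hη
    have hη0 : 0 < η := by positivity
    obtain ⟨L1, hL1⟩ := exists_nat_ge (2 * B)
    filter_upwards [h1.eventually (gt_mem_nhds hη0), eventually_ge_atTop L1] with L hL hLL
    have hbd : ∀ (n : ℕ) (j : Fin k), ‖Complex.exp (Complex.I * (t j * U (af j) (φ j) (q n j) K : ℝ)) -
        ∑ r ∈ Finset.range L, (Complex.I * (t j * U (af j) (φ j) (q n j) K : ℝ)) ^ r / (r.factorial : ℂ)‖ ≤ η := by
      intro n j
      have h2 : ‖Complex.I * (t j * U (af j) (φ j) (q n j) K : ℝ)‖ ≤ B := by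
        rw [norm_mul, Complex.norm_I, one_mul, Complex.norm_real, Real.norm_eq_abs, abs_mul]
        exact mul_le_mul (hTj j) ((abs_U_le' (af j) (φ j) _ K).trans (hAj j)) (abs_nonneg _) hTm0
      have h3 : ‖Complex.I * (t j * U (af j) (φ j) (q n j) K : ℝ)‖ / (L.succ : ℝ) ≤ 1 / 2 := by
        rw [div_le_iff₀ (by positivity)]
        have : (L1:ℝ) ≤ L := by exact_mod_cast hLL
        have e9 : ((L.succ : ℕ) : ℝ) = L + 1 := by push_cast; ring
        rw [e9]
        linarith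
      refine (Complex.exp_bound' h3).trans ?_
      have h4 : ‖Complex.I * (t j * U (af j) (φ j) (q n j) K : ℝ)‖ ^ L / (L.factorial : ℝ) * 2 ≤ B ^ L / (L.factorial : ℝ) * 2 := by
        gcongr
      linarith
    refine Eventually.of_forall fun N => ?_
    rw [← sub_div, ← Finset.sum_sub_distrib]
    rcases Nat.eq_zero_or_pos N with rfl | hN
    · simp [hε.le]
    have hN0 : (0:ℝ) < N := by exact_mod_cast hN
    rw [norm_div, Complex.norm_natCast, div_le_iff₀ hN0]
    have h5 : ∀ n : ℕ, ‖∏ j, Complex.exp (Complex.I * (t j * U (af j) (φ j) (q n j) K : ℝ)) -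
        ∏ j, ∑ r ∈ Finset.range L, (Complex.I * (t j * U (af j) (φ j) (q n j) K : ℝ)) ^ r / (r.factorial : ℂ)‖ ≤ ε := by
      intro n
      have hone : ∀ j : Fin k, ‖Complex.exp (Complex.I * (t j * U (af j) (φ j) (q n j) K : ℝ))‖ ≤ 1 := by
        intro j
        rw [mul_comm, Complex.norm_exp_ofReal_mul_I]
      have h6 := prod_diff (Finset.univ : Finset (Fin k)) hone (y := fun j => ∑ r ∈ Finset.range L,
        (Complex.I * (t j * U (af j) (φ j) (q n j) K : ℝ)) ^ r / (r.factorial : ℂ)) (fun j => by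
          have h7 := hbd n j
          have h8 := hone j
          have h9 := norm_sub_norm_le (∑ r ∈ Finset.range L, (Complex.I * (t j * U (af j) (φ j) (q n j) K : ℝ)) ^ r / (r.factorial : ℂ))
            (Complex.exp (Complex.I * (t j * U (af j) (φ j) (q n j) K : ℝ)))
          rw [norm_sub_rev] at h9
          have : η ≤ 1 := min_le_left _ _
          linarith)
      refine h6.trans ?_
      rw [Finset.card_univ, Fintype.card_fin]
      calc 2 ^ k * ∑ j : Fin k, ‖Complex.exp (Complex.I * (t j * U (af j) (φ j) (q n j) K : ℝ)) -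
            ∑ r ∈ Finset.range L, (Complex.I * (t j * U (af j) (φ j) (q n j) K : ℝ)) ^ r / (r.factorial : ℂ)‖
          ≤ 2 ^ k * ∑ _j : Fin k, η := by
            apply mul_le_mul_of_nonneg_left _ (by positivity)
            exact Finset.sum_le_sum fun j _ => hbd n j
        _ = 2 ^ k * k * η := by
            rw [Finset.sum_const, Finset.card_univ, Fintype.card_fin, nsmul_eq_mul]; ring
        _ ≤ 2 ^ k * (k + 1) * (ε / (2 ^ k * (k + 1))) := by
            apply mul_le_mul _ (min_le_right _ _) hη0.le (by positivity)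
            apply mul_le_mul_of_nonneg_left _ (by positivity)
            linarith
        _ = ε := by field_simp
    calc ‖∑ n ∈ Finset.range N, (∏ j, Complex.exp (Complex.I * (t j * U (af j) (φ j) (q n j) K : ℝ)) -
        ∏ j, ∑ r ∈ Finset.range L, (Complex.I * (t j * U (af j) (φ j) (q n j) K : ℝ)) ^ r / (r.factorial : ℂ))‖
        ≤ ∑ _n ∈ Finset.range N, ε := (norm_sum_le _ _).trans (Finset.sum_le_sum fun n _ => h5 n)
      _ = ε * N := by rw [Finset.sum_const, Finset.card_range, nsmul_eq_mul]; ring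

/-- closeness of the characteristic functions -/
lemma char_closem {q : ℕ → Fin k → ℝ}
    (h2 : ∀ (j : Fin k), ∀ ε : ℝ, 0 < ε → ∀ᶠ K : ℕ in atTop, ∀ᶠ N : ℕ in atTop,
      ∑ n ∈ Finset.range N, (E j (q n j) - U (af j) (φ j) (q n j) K) ^ 2 ≤ ε * N) (t : Fin k → ℝ) :
    ∀ ε : ℝ, 0 < ε → ∀ᶠ K : ℕ in atTop, ∀ᶠ N : ℕ in atTop,
      ‖(∑ n ∈ Finset.range N, ∏ j, Complex.exp (Complex.I * (t j * E j (q n j) : ℝ))) / (N:ℂ) -
        (∑ n ∈ Finset.range N, ∏ j, Complex.exp (Complex.I * (t j * U (af j) (φ j) (q n j) K : ℝ))) / (N:ℂ)‖ ≤ ε := by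
  intro ε hε
  set Tm := ∑ j, |t j| with hTm
  have hTj : ∀ j, |t j| ≤ Tm := fun j => Finset.single_le_sum (f := fun j => |t j|) (fun _ _ => abs_nonneg _) (Finset.mem_univ j)
  have hTm0 : 0 ≤ Tm := Finset.sum_nonneg fun _ _ => abs_nonneg _
  set D : ℝ := 2 ^ k * Tm * k + 1 with hD
  have hD0 : 0 < D := by positivity
  set η := ε / (2 * D) with hη
  have hη0 : 0 < η := by positivity
  have h3 : ∀ᶠ K : ℕ in atTop, ∀ j : Fin k, ∀ᶠ N : ℕ in atTop,
      ∑ n ∈ Finset.range N, (E j (q n j) - U (af j) (φ j) (q n j) K) ^ 2 ≤ η ^ 2 * N :=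
    eventually_all.mpr fun j => h2 j (η ^ 2) (by positivity)
  filter_upwards [h3] with K hK
  filter_upwards [eventually_all.mpr hK, eventually_ge_atTop 1] with N hN hN1
  have hN0 : (0:ℝ) < N := by exact_mod_cast hN1
  rw [← sub_div, ← Finset.sum_sub_distrib, norm_div, Complex.norm_natCast, div_le_iff₀ hN0]
  have hpt : ∀ n : ℕ, ‖∏ j, Complex.exp (Complex.I * (t j * E j (q n j) : ℝ)) -
      ∏ j, Complex.exp (Complex.I * (t j * U (af j) (φ j) (q n j) K : ℝ))‖ ≤
      2 ^ k * ∑ j : Fin k, Tm * (η + η⁻¹ * (E j (q n j) - U (af j) (φ j) (q n j) K) ^ 2) := by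
    intro n
    have hone : ∀ x : ℝ, ‖Complex.exp (Complex.I * (x : ℝ))‖ = 1 := by
      intro x
      rw [mul_comm, Complex.norm_exp_ofReal_mul_I]
    have h6 := prod_diff (Finset.univ : Finset (Fin k)) (x := fun j => Complex.exp (Complex.I * (t j * E j (q n j) : ℝ)))
      (y := fun j => Complex.exp (Complex.I * (t j * U (af j) (φ j) (q n j) K : ℝ))) (fun j => (hone _).le)
      (fun j => by rw [hone]; norm_num)
    rw [Finset.card_univ, Fintype.card_fin] at h6
    refine h6.trans ?_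
    apply mul_le_mul_of_nonneg_left _ (by positivity)
    apply Finset.sum_le_sum
    intro j _
    refine (exp_lip _ _).trans ?_
    rw [← mul_sub, abs_mul]
    apply mul_le_mul (hTj j) _ (abs_nonneg _) hTm0
    set v := E j (q n j) - U (af j) (φ j) (q n j) K with hv
    have h7 : |v| ≤ η + η⁻¹ * v ^ 2 := by
      rcases le_total |v| η with h8 | h8
      · have : 0 ≤ η⁻¹ * v ^ 2 := by positivity
        linarith
      · have h9 : η⁻¹ * v ^ 2 = |v| * (|v| / η) := by
          rw [← sq_abs]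
          field_simp
        have h10 : 1 ≤ |v| / η := by rwa [one_le_div hη0]
        rw [h9]
        have := mul_le_mul_of_nonneg_left h10 (abs_nonneg v)
        linarith
    exact h7
  calc ‖∑ n ∈ Finset.range N, (∏ j, Complex.exp (Complex.I * (t j * E j (q n j) : ℝ)) -
      ∏ j, Complex.exp (Complex.I * (t j * U (af j) (φ j) (q n j) K : ℝ)))‖
      ≤ ∑ n ∈ Finset.range N, 2 ^ k * ∑ j : Fin k, Tm * (η + η⁻¹ * (E j (q n j) - U (af j) (φ j) (q n j) K) ^ 2) :=
        (norm_sum_le _ _).trans (Finset.sum_le_sum fun n _ => hpt n)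
    _ = 2 ^ k * ∑ j : Fin k, Tm * (η * N + η⁻¹ * ∑ n ∈ Finset.range N, (E j (q n j) - U (af j) (φ j) (q n j) K) ^ 2) := by
        rw [← Finset.mul_sum, Finset.sum_comm]
        congr 1
        apply Finset.sum_congr rfl
        intro j _
        rw [← Finset.mul_sum, Finset.sum_add_distrib, Finset.sum_const, Finset.card_range, nsmul_eq_mul, ← Finset.mul_sum]
        ring
    _ ≤ 2 ^ k * ∑ _j : Fin k, Tm * (η * N + η⁻¹ * (η ^ 2 * N)) := by
        apply mul_le_mul_of_nonneg_left _ (by positivity)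
        apply Finset.sum_le_sum
        intro j _
        apply mul_le_mul_of_nonneg_left _ hTm0
        have := mul_le_mul_of_nonneg_left (hN j) (inv_nonneg.mpr hη0.le)
        linarith
    _ = (2 ^ k * Tm * k) * (2 * η) * N := by
        rw [Finset.sum_const, Finset.card_univ, Fintype.card_fin, nsmul_eq_mul]
        have : η⁻¹ * (η ^ 2 * N) = η * N := by field_simp
        rw [this]
        ring
    _ ≤ D * (2 * η) * N := by
        apply mul_le_mul_of_nonneg_right _ hN0.le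
        apply mul_le_mul_of_nonneg_right _ (by positivity)
        rw [hD]; linarith
    _ = ε * N := by
        rw [hη]
        field_simp

/-- characteristic functions of the error term -/
theorem charEm {m : Fin k → ℝ → ℂ} (hμ : ∀ j, ∀ t : ℝ, Tendsto (fun K => mK (af j) (φ j) K t) atTop (𝓝 (m j t)))
    {q : ℕ → Fin k → ℝ} (hm : ∀ (p : Fin k → ℕ) (K : ℕ),
    Tendsto (fun N : ℕ => (∑ n ∈ Finset.range N, ∏ j : Fin k, ((U (af j) (φ j) (q n j) K : ℝ) : ℂ) ^ (p j)) / (N:ℂ)) atTop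
      (𝓝 (∏ j, ZZ (af j) (φ j) (p j) K)))
    (h2 : ∀ (j : Fin k), ∀ ε : ℝ, 0 < ε → ∀ᶠ K : ℕ in atTop, ∀ᶠ N : ℕ in atTop,
      ∑ n ∈ Finset.range N, (E j (q n j) - U (af j) (φ j) (q n j) K) ^ 2 ≤ ε * N) (t : Fin k → ℝ) :
    Tendsto (fun N : ℕ => (∑ n ∈ Finset.range N, ∏ j, Complex.exp (Complex.I * (t j * E j (q n j) : ℝ))) / (N:ℂ)) atTop
      (𝓝 (∏ j, m j (t j))) :=
  lim3 (G := fun K N => (∑ n ∈ Finset.range N, ∏ j : Fin k, Complex.exp (Complex.I * (t j * U (af j) (φ j) (q n j) K : ℝ))) / (N:ℂ))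
    (g := fun K => ∏ j, mK (af j) (φ j) K (t j)) (fun K => charKm (hm · K) t) (tendsto_finsetProd _ fun j _ => hμ j (t j))
    (char_closem h2 t)

/-- the law from the characteristic functions -/
theorem law_of_charm {X : ℕ → Fin k → ℝ}
    (h : ∀ t : Fin k → ℝ, Tendsto (fun N : ℕ => (∑ n ∈ Finset.range N,
      ∏ j, Complex.exp (Complex.I * (t j * X n j : ℝ))) / (N:ℂ)) atTop (𝓝 (∏ j, charFun (μ j : Measure ℝ) (t j))))
    {g : (Fin k → ℝ) → ℝ} (hg : Continuous g) (hb : ∃ B, ∀ x, |g x| ≤ B) :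
    Tendsto (fun N : ℕ => (∑ n ∈ Finset.range N, g (X n)) / (N:ℝ)) atTop
      (𝓝 (∫ x, g x ∂(Measure.pi fun j : Fin k => (μ j : Measure ℝ)))) := by
  obtain ⟨B, hB⟩ := hb
  set Y : ℕ → EuclideanSpace ℝ (Fin k) := fun n => WithLp.toLp 2 (X n) with hY
  set ν : Measure (EuclideanSpace ℝ (Fin k)) := (Measure.pi fun j : Fin k => (μ j : Measure ℝ)).map (WithLp.toLp 2) with hν
  have hmeas : Measurable (WithLp.toLp 2 : (Fin k → ℝ) → EuclideanSpace ℝ (Fin k)) :=
    (MeasurableEquiv.toLp 2 (Fin k → ℝ)).measurable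
  haveI : IsProbabilityMeasure ν := Measure.isProbabilityMeasure_map hmeas.aemeasurable
  set PN : ℕ → ProbabilityMeasure (EuclideanSpace ℝ (Fin k)) := fun N => ⟨em Y N, inferInstance⟩ with hPN
  set P0 : ProbabilityMeasure (EuclideanSpace ℝ (Fin k)) := ⟨ν, inferInstance⟩ with hP0
  have hconv : Tendsto PN atTop (𝓝 P0) := by
    apply ProbabilityMeasure.tendsto_of_tendsto_charFun
    intro t
    have h1 := (tendsto_add_atTop_iff_nat 1).mpr (h fun j => t j)
    have h2 : charFun ν t = ∏ j, charFun (μ j : Measure ℝ) (t j) := by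
      rw [hν]; exact charFun_pi t
    change Tendsto (fun N => charFun (em Y N) t) atTop (𝓝 (charFun ν t))
    rw [h2]
    refine h1.congr fun N => ?_
    rw [charFun_apply, em_integral]
    rw [Complex.real_smul, div_eq_inv_mul]
    congr 1
    · push_cast; rfl
    · apply Finset.sum_congr rfl
      intro n _
      rw [← Complex.exp_sum]
      congr 1
      rw [PiLp.inner_apply]
      push_cast
      rw [Finset.sum_mul]
      apply Finset.sum_congr rfl
      intro j _
      simp only [hY]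
      simp only [RCLike.inner_apply, conj_trivial]
      push_cast
      ring
  rw [ProbabilityMeasure.tendsto_iff_forall_integral_tendsto] at hconv
  have hgc : Continuous fun x : EuclideanSpace ℝ (Fin k) => g (WithLp.ofLp x) :=
    hg.comp (PiLp.continuous_ofLp 2 _)
  have h3 := hconv (BoundedContinuousFunction.ofNormedAddCommGroup (fun x => g (WithLp.ofLp x)) hgc B (fun x => hB _))
  change Tendsto (fun N => ∫ x, g (WithLp.ofLp x) ∂(em Y N)) atTop (𝓝 (∫ x, g (WithLp.ofLp x) ∂ν)) at h3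
  have h4 : ∫ x, g (WithLp.ofLp x) ∂ν = ∫ x, g x ∂(Measure.pi fun j : Fin k => (μ j : Measure ℝ)) := by
    rw [hν, integral_map hmeas.aemeasurable hgc.aestronglyMeasurable]
  rw [h4] at h3
  refine (tendsto_add_atTop_iff_nat 1).mp (h3.congr fun N => ?_)
  rw [em_integral, smul_eq_mul, div_eq_inv_mul]

open Classical in
/-- the mixed moments of the model polynomials -/
theorem mixedm (h : ∀ j, DS (a j) δ) (b : Fin k → ℕ → ℝ) (af : Fin k → ℕ → ℝ) (φ : Fin k → ℝ) :
    ∀ᵐ α : Fin k → ℝ, (∀ j, 0 < α j) → ∀ (p : Fin k → ℕ) (K : ℕ),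
    Tendsto (fun N : ℕ => (∑ n ∈ Finset.range N, ∏ j : Fin k, ((U (af j) (φ j) (dl (a j) (b j) n (α j)) K : ℝ) : ℂ) ^ (p j)) / (N:ℂ)) atTop
      (𝓝 (∏ j, ZZ (af j) (φ j) (p j) K)) := by
  -- almost everywhere for the countably many frequencies
  have key : ∀ᵐ α : Fin k → ℝ, ∀ (p : Fin k → ℕ) (K : ℕ), (∀ j, 0 < α j) →
      ∀ x ∈ Fintype.piFinset (fun j : Fin k => TT (p j) K), (∃ j, ∑ i, fq (x j i) ≠ 0) →
      Tendsto (fun N : ℕ => (∑ n ∈ Finset.range N, e (∑ j, (∑ i, fq (x j i)) * (α j * a j n + b j n))) / (N:ℂ)) atTop (𝓝 0) := by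
    rw [ae_all_iff]
    intro p
    rw [ae_all_iff]
    intro K
    have h1 : ∀ᵐ α : Fin k → ℝ, ∀ x : (Fintype.piFinset (fun j : Fin k => TT (p j) K)), (∀ j, 0 < α j) →
        (∃ j, ∑ i, fq (x.1 j i) ≠ 0) →
        Tendsto (fun N : ℕ => (∑ n ∈ Finset.range N, e (∑ j, (∑ i, fq (x.1 j i)) * (α j * a j n + b j n))) / (N:ℂ))
          atTop (𝓝 0) := by
      rw [ae_all_iff]
      intro x
      by_cases hx : ∃ j, ∑ i, fq (x.1 j i) ≠ 0
      · obtain ⟨j0, hj0⟩ := hx
        filter_upwards [weyl_pi (b := b) h (F := fun j => ∑ i, fq (x.1 j i)) hj0] with α hα h0 _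
        exact hα h0
      · exact Eventually.of_forall fun α _ h0 => absurd h0 hx
    filter_upwards [h1] with α hα hα0 x hx hP
    exact hα ⟨x, hx⟩ hα0 hP
  filter_upwards [key] with α hα hα0 p K
  have hexp : ∀ n : ℕ, ∏ j : Fin k, ((U (af j) (φ j) (dl (a j) (b j) n (α j)) K : ℝ) : ℂ) ^ (p j) =
      ∑ x ∈ Fintype.piFinset (fun j : Fin k => TT (p j) K), (∏ j, ∏ i, cf (af j) (φ j) (x j i)) *
        e (∑ j, (∑ i, fq (x j i)) * (α j * a j n + b j n)) := by
    intro n
    simp only [U_pow]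
    rw [Finset.prod_univ_sum]
    apply Finset.sum_congr rfl
    intro x _
    rw [Finset.prod_mul_distrib, ← e_sum]
    congr 2
    apply Finset.sum_congr rfl
    intro j _
    unfold dl
    ring
  have hlim : ∀ x ∈ Fintype.piFinset (fun j : Fin k => TT (p j) K),
      Tendsto (fun N : ℕ => (∑ n ∈ Finset.range N, e (∑ j, (∑ i, fq (x j i)) * (α j * a j n + b j n))) / (N:ℂ)) atTop
        (𝓝 (∏ j, if ∑ i, fq (x j i) = 0 then (1:ℂ) else 0)) := by
    intro x hx
    by_cases hP : ∃ j, ∑ i, fq (x j i) ≠ 0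
    · have h3 : (∏ j, if ∑ i, fq (x j i) = 0 then (1:ℂ) else 0) = 0 := by
        obtain ⟨j, hj⟩ := hP
        exact Finset.prod_eq_zero (Finset.mem_univ j) (if_neg hj)
      rw [h3]
      exact hα p K hα0 x hx hP
    · push Not at hP
      have h3 : (∏ j, if ∑ i, fq (x j i) = 0 then (1:ℂ) else 0) = 1 :=
        Finset.prod_eq_one fun j _ => if_pos (hP j)
      rw [h3]
      refine tendsto_const_nhds.congr' ?_
      filter_upwards [eventually_ge_atTop 1] with N hN
      have hN0 : (N:ℂ) ≠ 0 := by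
        have : N ≠ 0 := by omega
        exact_mod_cast this
      simp only [hP, zero_mul, Finset.sum_const_zero, e_zero, Finset.sum_const, Finset.card_range, nsmul_eq_mul, mul_one]
      rw [div_self hN0]
  have h6 : Tendsto (fun N : ℕ => ∑ x ∈ Fintype.piFinset (fun j : Fin k => TT (p j) K), (∏ j, ∏ i, cf (af j) (φ j) (x j i)) *
      ((∑ n ∈ Finset.range N, e (∑ j, (∑ i, fq (x j i)) * (α j * a j n + b j n))) / (N:ℂ))) atTop
      (𝓝 (∑ x ∈ Fintype.piFinset (fun j : Fin k => TT (p j) K), (∏ j, ∏ i, cf (af j) (φ j) (x j i)) *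
        (∏ j, if ∑ i, fq (x j i) = 0 then (1:ℂ) else 0))) :=
    tendsto_finsetSum _ fun x hx => (hlim x hx).const_mul _
  have h7 : ∑ x ∈ Fintype.piFinset (fun j : Fin k => TT (p j) K), (∏ j, ∏ i, cf (af j) (φ j) (x j i)) *
        (∏ j, if ∑ i, fq (x j i) = 0 then (1:ℂ) else 0) = ∏ j, ZZ (af j) (φ j) (p j) K := by
    simp only [← Finset.prod_mul_distrib]
    rw [← Finset.prod_univ_sum (fun j : Fin k => TT (p j) K)
      (fun j (η : Fin (p j) → ℕ × Bool) => (∏ i, cf (af j) (φ j) (η i)) * (if ∑ i, fq (η i) = 0 then (1:ℂ) else 0))]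
    apply Finset.prod_congr rfl
    intro j _
    unfold ZZ
    rw [Finset.sum_filter]
    apply Finset.sum_congr rfl
    intro η _
    split_ifs <;> simp
  rw [h7] at h6
  refine h6.congr fun N => ?_
  simp only [hexp]
  rw [Finset.sum_comm, Finset.sum_div]
  apply Finset.sum_congr rfl
  intro x _
  rw [← Finset.mul_sum, mul_div_assoc]

/-- the approximation for all coordinates -/
theorem good2_pim (hX : ∀ j, Cx2 (E j) (af j) (φ j)) (h : ∀ j, DS (a j) δ) (hB : 0 ≤ B) (hb : ∀ j n, 0 ≤ b j n ∧ b j n ≤ B * a j n) :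
    ∀ᵐ α : Fin k → ℝ, (∀ j, 0 < α j) → ∀ (j : Fin k), ∀ ε : ℝ, 0 < ε → ∀ᶠ K : ℕ in atTop, ∀ᶠ N : ℕ in atTop,
      ∑ n ∈ Finset.range N, (E j (dl (a j) (b j) n (α j)) - U (af j) (φ j) (dl (a j) (b j) n (α j)) K) ^ 2 ≤ ε * N := by
  have h1 : ∀ᵐ α : Fin k → ℝ, ∀ j : Fin k, 0 < α j → ∀ ε : ℝ, 0 < ε → ∀ᶠ K : ℕ in atTop, ∀ᶠ N : ℕ in atTop,
      ∑ n ∈ Finset.range N, (E j (dl (a j) (b j) n (α j)) - U (af j) (φ j) (dl (a j) (b j) n (α j)) K) ^ 2 ≤ ε * N := by
    rw [ae_all_iff]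
    intro j
    have h2 : ∀ᵐ y : ℝ, 0 < y → ∀ ε : ℝ, 0 < ε → ∀ᶠ K : ℕ in atTop, ∀ᶠ N : ℕ in atTop,
        ∑ n ∈ Finset.range N, (E j (dl (a j) (b j) n y) - U (af j) (φ j) (dl (a j) (b j) n y) K) ^ 2 ≤ ε * N :=
      ae_pos fun c d hc hcd => good2' (hX j) (h j) hB (hb j) hc hcd.le
    exact (Measure.quasiMeasurePreserving_eval (fun _ : Fin k => (volume : Measure ℝ)) j).ae h2
  filter_upwards [h1] with α hα hα0 j
  exact hα j (hα0 j)

/-- uniform integrability -/
lemma unif_intm {q : ℕ → Fin k → ℝ}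
    (h2 : ∀ (j : Fin k), ∀ ε : ℝ, 0 < ε → ∀ᶠ K : ℕ in atTop, ∀ᶠ N : ℕ in atTop,
      ∑ n ∈ Finset.range N, (E j (q n j) - U (af j) (φ j) (q n j) K) ^ 2 ≤ ε * N) :
    ∀ ε : ℝ, 0 < ε → ∃ T : ℝ, 1 ≤ T ∧ ∀ᶠ N : ℕ in atTop,
      ∑ n ∈ Finset.range N, (if T ≤ ‖(fun j => E j (q n j))‖ then ‖(fun j => E j (q n j))‖ ^ 2 else 0) ≤ ε * N := by
  intro ε hε
  have h3 : ∀ᶠ K : ℕ in atTop, ∀ j : Fin k, ∀ᶠ N : ℕ in atTop,
      ∑ n ∈ Finset.range N, (E j (q n j) - U (af j) (φ j) (q n j) K) ^ 2 ≤ (ε / (4 * (k + 1))) * N :=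
    eventually_all.mpr fun j => h2 j _ (by positivity)
  obtain ⟨K, hK⟩ := h3.exists
  set A := ∑ j, AA (af j) K with hA
  have hA0 : 0 ≤ A := Finset.sum_nonneg fun _ _ => AA_nonneg _ _
  have hAj : ∀ j, AA (af j) K ≤ A := fun j => Finset.single_le_sum (f := fun j => AA (af j) K) (fun _ _ => AA_nonneg _ _) (Finset.mem_univ j)
  refine ⟨2 * A + 1, by linarith, ?_⟩
  filter_upwards [eventually_all.mpr hK] with N hN
  have hpt : ∀ n, (if 2 * A + 1 ≤ ‖(fun j => E j (q n j))‖ then ‖(fun j => E j (q n j))‖ ^ 2 else 0) ≤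
      4 * ∑ j : Fin k, (E j (q n j) - U (af j) (φ j) (q n j) K) ^ 2 := by
    intro n
    have hnn : 0 ≤ 4 * ∑ j : Fin k, (E j (q n j) - U (af j) (φ j) (q n j) K) ^ 2 := by positivity
    split_ifs with h4
    · set X : Fin k → ℝ := fun j => E j (q n j) with hX
      have hk : Nonempty (Fin k) := by
        by_contra hne
        have hk0 : k = 0 := by
          by_contra hne'
          exact hne ⟨⟨0, Nat.pos_of_ne_zero hne'⟩⟩
        subst hk0
        have h8 : ‖X‖ = 0 := by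
          rw [norm_eq_zero]; exact Subsingleton.elim _ _
        rw [h8] at h4
        linarith
      obtain ⟨j, hj⟩ := (Finite.exists_max fun j => ‖X j‖)
      have h8 : ‖X‖ ≤ ‖X j‖ := (pi_norm_le_iff_of_nonneg (norm_nonneg _)).mpr hj
      have h9 : ‖X j‖ ≤ 2 * |E j (q n j) - U (af j) (φ j) (q n j) K| := by
        have h10 := (abs_U_le' (af j) (φ j) (q n j) K).trans (hAj j)
        have h11 : ‖X j‖ = |E j (q n j)| := rfl
        have h12 : |E j (q n j)| ≤ |E j (q n j) - U (af j) (φ j) (q n j) K| + |U (af j) (φ j) (q n j) K| := by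
          have := abs_add_le (E j (q n j) - U (af j) (φ j) (q n j) K) (U (af j) (φ j) (q n j) K)
          rwa [sub_add_cancel] at this
        rw [h11] at h8 ⊢
        linarith
      have h13 : ‖X‖ ^ 2 ≤ (2 * |E j (q n j) - U (af j) (φ j) (q n j) K|) ^ 2 :=
        pow_le_pow_left₀ (norm_nonneg _) (h8.trans h9) 2
      have h14 : (E j (q n j) - U (af j) (φ j) (q n j) K) ^ 2 ≤ ∑ j : Fin k, (E j (q n j) - U (af j) (φ j) (q n j) K) ^ 2 :=
        Finset.single_le_sum (f := fun j => (E j (q n j) - U (af j) (φ j) (q n j) K) ^ 2) (fun i _ => sq_nonneg _) (Finset.mem_univ j)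
      rw [mul_pow, sq_abs] at h13
      linarith
    · exact hnn
  refine (Finset.sum_le_sum fun n _ => hpt n).trans ?_
  rw [← Finset.mul_sum, Finset.sum_comm]
  have h5 : ∑ j : Fin k, ∑ n ∈ Finset.range N, (E j (q n j) - U (af j) (φ j) (q n j) K) ^ 2 ≤
      ∑ _j : Fin k, (ε / (4 * (k + 1))) * N := Finset.sum_le_sum fun j _ => hN j
  rw [Finset.sum_const, Finset.card_univ, Fintype.card_fin, nsmul_eq_mul] at h5
  calc 4 * ∑ j : Fin k, ∑ n ∈ Finset.range N, (E j (q n j) - U (af j) (φ j) (q n j) K) ^ 2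
      ≤ 4 * ((k:ℝ) * ((ε / (4 * (k + 1))) * N)) := by linarith
    _ = ε * N * ((k:ℝ) / (k + 1)) := by field_simp
    _ ≤ ε * N := by
        apply mul_le_of_le_one_right (by positivity)
        rw [div_le_one (by positivity)]
        linarith


/-- **the joint law of different error terms along dilated sequences** -/
theorem law_dilm (hX : ∀ j, Cx2 (E j) (af j) (φ j))
    (hμ : ∀ j, ∀ t : ℝ, Tendsto (fun K => mK (af j) (φ j) K t) atTop (𝓝 (charFun (μ j : Measure ℝ) t)))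
    (h : ∀ j, DS (a j) δ) (hB : 0 ≤ B) (hb : ∀ j n, 0 ≤ b j n ∧ b j n ≤ B * a j n) :
    ∀ᵐ α : Fin k → ℝ, (∀ j, 0 < α j) → ∀ f : (Fin k → ℝ) → ℝ, Continuous f →
      (∃ C : ℝ, ∀ x, |f x| ≤ C * (1 + ‖x‖ ^ 2)) →
      Integrable f (Measure.pi fun j : Fin k => (μ j : Measure ℝ)) ∧
      Tendsto (fun N : ℕ => (∑ n ∈ Finset.range N, f (fun j => E j (α j * a j n + b j n))) / (N:ℝ)) atTop
        (𝓝 (∫ x, f x ∂(Measure.pi fun j : Fin k => (μ j : Measure ℝ)))) := by
  filter_upwards [mixedm h b af φ, good2_pim hX h hB hb] with α h1 h3 hα f hf hfg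
  refine quad_conv (X := fun n j => E j (α j * a j n + b j n)) (fun g hg hgb => law_of_charm (fun t => ?_) hg hgb) ?_ hf hfg
  · exact charEm hμ (q := fun n (j : Fin k) => dl (a j) (b j) n (α j)) (fun p K => h1 hα p K) (fun j => h3 hα j) t
  · exact unif_intm (q := fun n (j : Fin k) => dl (a j) (b j) n (α j)) (fun j => h3 hα j)

end Run7.h113.GX
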