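import Pool.Agent.Run7.h113.GX.Gen
import Pool.Agent.R373.NFI.Nf

/-!
Central limit theorem and rate along powers for the partial sums of the coefficients of newforms.
-/

set_option autoImplicit false

open MeasureTheory Filter Topology Set Real ProbabilityTheory
open UpperHalfPlane MatrixGroups CongruenceSubgroup
open scoped ENNReal
open Pool.Agent.TH940.NV
open Pool.Agent.R461.GC (EN_meas EN_eq)
open Run7.h113.CL (Lw)
open Pool.Agent.R306.GP (Ctx mK)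

namespace Run7.h113.GX

variable {N : ℕ} [NeZero N] {k : ℤ} {f g : CuspForm (Gamma1 N : Subgroup (GL (Fin 2) ℝ)) k} {η : ℂ} {lam : ℕ → ℂ}

/-- the law of a newform -/
theorem nf_gen (h : FormData N k f g η lam) (hk : 1 ≤ k) (w : ℂ) :
    ∃ ν : ProbabilityMeasure ℝ, ∫ x, x ∂(ν : Measure ℝ) = 0 ∧
      HasSum (fun m : ℕ => √(N:ℝ) / (4 * Real.pi ^ 2) * (w * η * (starRingEnd ℂ) (lam m)).re ^ 2 * (m : ℝ) ^ (-(3 / 2) : ℝ))
        (∫ x, x ^ 2 ∂(ν : Measure ℝ)) ∧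
      Lw (af w η N k lam) (phk k) ν ∧
      (∀ t : ℝ, Tendsto (fun K => mK (af w η N k lam) (phk k) K t) atTop (𝓝 (charFun (ν : Measure ℝ) t))) ∧
      Ctx (En (lre w lam) (2/√(N:ℝ))) (af w η N k lam) (phk k) ∧
      Run7.h113.MT.Cx2 (En (lre w lam) (2/√(N:ℝ))) (af w η N k lam) (phk k) := by
  have hN0 : (0:ℝ) < N := Nat.cast_pos.2 (Nat.pos_of_ne_zero (NeZero.ne N))
  obtain ⟨ν, h1, h2, h3, h4, h5, h6⟩ := gen_law (h.Bdw hk w) (af_zero w η N k lam) wq_Wt (h.sandW hk w) (EN_meas _ _)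
  refine ⟨ν, h1, ?_, h3, h4, h5, h6⟩
  convert h2 using 1
  funext m
  rcases Nat.eq_zero_or_pos m with rfl | hm
  · rw [if_neg (by norm_num), Nat.cast_zero, Real.zero_rpow (by norm_num), mul_zero]
  · have hm0 : (0 : ℝ) < m := by exact_mod_cast hm
    rw [if_pos (by omega), af_eq hk lam hm]
    have e1 : ((m : ℝ) ^ (-(3 / 4) : ℝ)) ^ 2 = (m : ℝ) ^ (-(3 / 2) : ℝ) := by
      rw [← Real.rpow_natCast, ← Real.rpow_mul hm0.le]
      norm_num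
    have e2 : (√2 : ℝ) ^ 2 = 2 := Real.sq_sqrt (by norm_num)
    have e3 : ((N:ℝ) ^ (1/4:ℝ)) ^ 2 = √(N:ℝ) := by
      rw [← Real.rpow_natCast, ← Real.rpow_mul hN0.le, Real.sqrt_eq_rpow]
      norm_num
    have hpi := Real.pi_ne_zero
    rw [mul_pow, mul_pow, e1, div_pow, mul_pow, e2, e3]
    field_simp
    ring

/-- **central limit theorem and rate for newforms** -/
theorem nf_clt (h : FormData N k f g η lam) (hk : 1 ≤ k) (w : ℂ) :
    ∃ ν : ProbabilityMeasure ℝ, (∀ F : Polynomial ℝ, Integrable (fun x => F.eval x) (ν : Measure ℝ)) ∧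
      ∫ x, x ∂(ν : Measure ℝ) = 0 ∧
      HasSum (fun m : ℕ => √(N:ℝ) / (4 * Real.pi ^ 2) * (w * η * (starRingEnd ℂ) (lam m)).re ^ 2 * (m : ℝ) ^ (-(3 / 2) : ℝ))
        (∫ x, x ^ 2 ∂(ν : Measure ℝ)) ∧
      ∀ (a b : ℕ → ℝ) (δ : ℝ), 0 < δ → (∀ n, a n + δ ≤ a (n + 1)) → (∀ n, 0 < b n) → Monotone b →
        (∀ᵐ α : ℝ, 1 < α → ∀ F : Polynomial ℝ,
          Tendsto (fun M : ℕ => (∑ n ∈ Finset.range M, (F.eval ((w * ∑ i ∈ Finset.Icc 1 ⌊b n * α ^ a n⌋₊, lam i).re /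
            (b n * α ^ a n) ^ (1 / 4 : ℝ)) - ∫ x, F.eval x ∂(ν : Measure ℝ))) / (√M * Real.log M ^ 2)) atTop (𝓝 0)) ∧
        ∀ (F : Polynomial ℝ) (m v : ℝ), m = ∫ x, F.eval x ∂(ν : Measure ℝ) →
          v = ∫ x, (F.eval x - m) ^ 2 ∂(ν : Measure ℝ) → 0 < v →
          ∀ A : Set ℝ, MeasurableSet A → A ⊆ Ioi 1 → volume A < ⊤ → ∀ x : ℝ,
            Tendsto (fun M : ℕ => volume.real {α | α ∈ A ∧
                ∑ n ∈ Finset.range M, (F.eval ((w * ∑ i ∈ Finset.Icc 1 ⌊b n * α ^ a n⌋₊, lam i).re /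
            (b n * α ^ a n) ^ (1 / 4 : ℝ)) - m) ≤ x * √(v * M)})
              atTop (𝓝 (volume.real A * (gaussianReal 0 1).real (Iic x))) := by
  have hN0 : (0:ℝ) < N := Nat.cast_pos.2 (Nat.pos_of_ne_zero (NeZero.ne N))
  have hsN : 0 < √(N:ℝ) := Real.sqrt_pos.2 hN0
  obtain ⟨ν, h1, h2, hL, -, hX, -⟩ := nf_gen h hk w
  refine ⟨ν, hL.int, h1, h2, fun a b δ hδ hg hb hbm => ?_⟩
  obtain ⟨g1, g2⟩ := gen_clt_x hL hX (show 0 < 2/√(N:ℝ) by positivity) hδ hg hb hbm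
  have e1 : ∀ α : ℝ, 1 < α → ∀ n : ℕ, En (lre w lam) (2/√(N:ℝ)) (2/√(N:ℝ) * √(b n * α ^ a n)) =
      (w * ∑ i ∈ Finset.Icc 1 ⌊b n * α ^ a n⌋₊, lam i).re / (b n * α ^ a n) ^ (1 / 4 : ℝ) := by
    intro α hα n
    have hx : 0 < b n * α ^ a n := mul_pos (hb n) (Real.rpow_pos_of_pos (by linarith) _)
    rw [EN_eq N w lam (Real.sqrt_pos.2 hx), Real.sq_sqrt hx.le]
  constructor
  · filter_upwards [g1] with α hα hα1 F
    have h3 := hα hα1 F
    simp only [e1 α hα1] at h3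
    exact h3
  · intro F m v hm hv hv0 A hA hA1 hAf x
    have h3 := g2 F m v hm hv hv0 A hA hA1 hAf x
    refine h3.congr fun M => ?_
    congr 1
    ext α
    simp only [Set.mem_ofPred_eq]
    refine and_congr_right fun hα => ?_
    simp only [e1 α (hA1 hα)]

end Run7.h113.GX
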