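import Mathlib
import Pool.Agent.Run7.h113.GX.Dil
import Pool.Agent.Run7.h113.GX.Nf
import Pool.Agent.Run7.h113.GX.Dv

/-!
Metric theorems for dilated sequences: newforms; the divisor problem and the circle problem.
-/

set_option autoImplicit false

open MeasureTheory Filter Topology Set
open scoped ENNReal
open Pool.Agent.R306.GP
open Run7.h113.MT

namespace Run7.h113.GX

variable {k : ℕ} {μ : Fin k → ProbabilityMeasure ℝ}

open Classical in
/-- joint frequencies -/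
theorem freq_of_lawm {X : ℕ → Fin k → ℝ} (hat : ∀ j, ∀ x : ℝ, (μ j : Measure ℝ) {x} = 0)
    (hlaw : ∀ g : (Fin k → ℝ) → ℝ, Continuous g → (∃ B, ∀ x, |g x| ≤ B) →
      Tendsto (fun N : ℕ => (∑ n ∈ Finset.range N, g (X n)) / (N:ℝ)) atTop
        (𝓝 (∫ x, g x ∂(Measure.pi fun j : Fin k => (μ j : Measure ℝ))))) (u : Fin k → ℝ) :
    Tendsto (fun N : ℕ => (((Finset.range N).filter fun n => ∀ j, X n j ≤ u j).card : ℝ) / N) atTop
      (𝓝 (∏ j, (μ j : Measure ℝ).real (Iic (u j)))) := by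
  set PN : ℕ → ProbabilityMeasure (Fin k → ℝ) := fun N => ⟨em X N, inferInstance⟩ with hPN
  set P0 : ProbabilityMeasure (Fin k → ℝ) := ⟨Measure.pi fun j : Fin k => (μ j : Measure ℝ), inferInstance⟩ with hP0
  have hconv : Tendsto PN atTop (𝓝 P0) := by
    rw [ProbabilityMeasure.tendsto_iff_forall_integral_tendsto]
    intro g
    have h1 := (tendsto_add_atTop_iff_nat 1).mpr (hlaw g g.continuous ⟨‖g‖, fun x => by
      have := g.norm_coe_le_norm x
      rwa [Real.norm_eq_abs] at this⟩)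
    refine h1.congr fun N => ?_
    change _ = ∫ x, g x ∂(em X N)
    rw [em_integral, smul_eq_mul, div_eq_inv_mul]
  set S : Set (Fin k → ℝ) := {x | ∀ j, x j ≤ u j} with hS
  have hSpi : S = Set.pi univ fun j => Iic (u j) := by
    ext x
    constructor
    · intro h j _
      exact h j
    · intro h j
      exact h j (mem_univ j)
  have hScl : IsClosed S := by
    rw [hSpi]
    exact isClosed_set_pi fun j _ => isClosed_Iic
  have hfr : frontier S ⊆ ⋃ j, {x : Fin k → ℝ | x j = u j} := by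
    rw [hScl.frontier_eq]
    rintro x ⟨hx1, hx2⟩
    by_contra hne
    apply hx2
    rw [mem_interior]
    refine ⟨{x : Fin k → ℝ | ∀ j, x j < u j}, fun z hz j => (hz j).le, ?_, fun j => ?_⟩
    · have : {x : Fin k → ℝ | ∀ j, x j < u j} = ⋂ j, {x : Fin k → ℝ | x j < u j} := by
        ext z; simp
      rw [this]
      exact isOpen_iInter_of_finite fun j => isOpen_lt (continuous_apply j) continuous_const
    · refine lt_of_le_of_ne (hx1 j) fun heq => hne ?_
      exact mem_iUnion.mpr ⟨j, heq⟩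
  have hnull : (P0 : Measure (Fin k → ℝ)) (frontier S) = 0 := by
    refine measure_mono_null hfr ?_
    rw [measure_iUnion_null_iff]
    intro j
    have h1 := (measurePreserving_eval (fun j : Fin k => (μ j : Measure ℝ)) j).measure_preimage
      (measurableSet_singleton (u j)).nullMeasurableSet
    rw [hat] at h1
    exact h1
  have h2 := ProbabilityMeasure.tendsto_measure_of_null_frontier_of_tendsto' hconv hnull
  have h3 : (P0 : Measure (Fin k → ℝ)) S = ∏ j, (μ j : Measure ℝ) (Iic (u j)) := by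
    change Measure.pi (fun j : Fin k => (μ j : Measure ℝ)) S = _
    rw [hSpi, Measure.pi_pi]
  have h4 := (ENNReal.tendsto_toReal (measure_ne_top (P0 : Measure (Fin k → ℝ)) S)).comp h2
  rw [h3, ENNReal.toReal_prod] at h4
  rw [← tendsto_add_atTop_iff_nat 1]
  refine h4.congr fun N => ?_
  change (em X N S).toReal = _
  unfold Pool.Agent.R306.GP.em
  rw [Measure.smul_apply, Measure.finsetSum_apply, smul_eq_mul, ENNReal.toReal_mul, ENNReal.toReal_inv,
    ENNReal.toReal_natCast, div_eq_inv_mul]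
  congr 1
  have h5 : ∀ n : ℕ, Measure.dirac (X n) S = if (∀ j, X n j ≤ u j) then 1 else 0 := by
    intro n
    rw [Measure.dirac_apply' _ hScl.measurableSet, Set.indicator_apply]
    rfl
  simp only [h5]
  rw [Finset.sum_ite, Finset.sum_const_zero, add_zero, Finset.sum_const, nsmul_eq_mul, mul_one, ENNReal.toReal_natCast]


/-- a common lower bound for scaled sequences -/
lemma ds_scale {a : Fin k → ℕ → ℝ} {δ : ℝ} (hδ : 0 < δ) (h0 : ∀ j, 0 < a j 0) (hg : ∀ j n, a j n + δ ≤ a j (n + 1))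
    {c : Fin k → ℝ} (hc : ∀ j, 0 < c j) : ∃ δ' : ℝ, ∀ j, DS (fun n => c j * a j n) δ' := by
  have h1 : ∀ᶠ x in 𝓝[>] (0:ℝ), (∀ j, x ≤ c j * δ) ∧ (∀ j, x ≤ c j * a j 0) ∧ 0 < x := by
    refine Eventually.and (eventually_all.mpr fun j => ?_) (Eventually.and (eventually_all.mpr fun j => ?_) self_mem_nhdsWithin)
    · exact (nhdsWithin_le_nhds) (Iic_mem_nhds (mul_pos (hc j) hδ))
    · exact (nhdsWithin_le_nhds) (Iic_mem_nhds (mul_pos (hc j) (h0 j)))
  obtain ⟨x, hx1, hx2, hx3⟩ := h1.exists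
  have hstep : ∀ j n, c j * a j n + x ≤ c j * a j (n + 1) := fun j n => by
    have h2 := mul_le_mul_of_nonneg_left (hg j n) (hc j).le
    have h3 := hx1 j
    linarith
  refine ⟨x, fun j => ⟨hx3, fun n => ?_, hstep j⟩⟩
  induction n with
  | zero => have := hx2 j; simpa using this
  | succ n ih =>
    have h2 := hstep j n
    push_cast
    linarith

/-- the metric theorem for scaled error terms -/
theorem dil_scale {E : Fin k → ℝ → ℝ} {af : Fin k → ℕ → ℝ} {φ : Fin k → ℝ} (hX : ∀ j, Cx2 (E j) (af j) (φ j))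
    (hμ : ∀ j, ∀ t : ℝ, Tendsto (fun K => mK (af j) (φ j) K t) atTop (𝓝 (charFun (μ j : Measure ℝ) t)))
    {c : Fin k → ℝ} (hc : ∀ j, 0 < c j) {a b : Fin k → ℕ → ℝ} {δ B : ℝ} (hδ : 0 < δ) (h0 : ∀ j, 0 < a j 0)
    (hg : ∀ j n, a j n + δ ≤ a j (n + 1)) (hb : ∀ j n, 0 ≤ b j n ∧ b j n ≤ B * a j n) :
    ∀ᵐ α : Fin k → ℝ, (∀ j, 0 < α j) → ∀ f : (Fin k → ℝ) → ℝ, Continuous f →
      (∃ C : ℝ, ∀ x, |f x| ≤ C * (1 + ‖x‖ ^ 2)) →
      Integrable f (Measure.pi fun j : Fin k => (μ j : Measure ℝ)) ∧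
      Tendsto (fun N : ℕ => (∑ n ∈ Finset.range N, f (fun j => E j (c j * (α j * a j n + b j n)))) / (N:ℝ)) atTop
        (𝓝 (∫ x, f x ∂(Measure.pi fun j : Fin k => (μ j : Measure ℝ)))) := by
  obtain ⟨δ', hDS⟩ := ds_scale hδ h0 hg hc
  have hb' : ∀ j n, 0 ≤ c j * b j n ∧ c j * b j n ≤ (max B 0) * (c j * a j n) := by
    intro j n
    refine ⟨mul_nonneg (hc j).le (hb j n).1, ?_⟩
    have h5 := (hDS j).low n
    have h6 := (hDS j).dpos
    have h7 : 0 ≤ δ' * ((n:ℝ) + 1) := by positivity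
    have h8 : 0 ≤ c j * a j n := le_trans h7 h5
    have h9 := mul_le_mul_of_nonneg_left (hb j n).2 (hc j).le
    calc c j * b j n ≤ c j * (B * a j n) := h9
      _ = B * (c j * a j n) := by ring
      _ ≤ _ := mul_le_mul_of_nonneg_right (le_max_left _ _) h8
  filter_upwards [law_dilm hX hμ hDS (le_max_right B 0) hb'] with α hα hα0 f hf hfg
  obtain ⟨g1, g2⟩ := hα hα0 f hf hfg
  refine ⟨g1, g2.congr fun N => ?_⟩
  congr 1
  refine Finset.sum_congr rfl fun n _ => ?_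
  congr 1
  funext j
  congr 1
  ring

section nf

open UpperHalfPlane MatrixGroups CongruenceSubgroup
open Pool.Agent.TH940.NV
open Pool.Agent.R461.GC (EN_eq)

/-- **newforms along dilated sequences** -/
theorem nf_dil (N : Fin k → ℕ) [∀ i, NeZero (N i)] (κ : Fin k → ℤ) (hκ : ∀ i, 1 ≤ κ i)
    (f g : ∀ i, CuspForm (Gamma1 (N i) : Subgroup (GL (Fin 2) ℝ)) (κ i)) (η : Fin k → ℂ) (lam : Fin k → ℕ → ℂ)
    (h : ∀ i, FormData (N i) (κ i) (f i) (g i) (η i) (lam i)) (w : Fin k → ℂ) :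
    ∃ ν : Fin k → ProbabilityMeasure ℝ,
      (∀ i, (∀ F : Polynomial ℝ, Integrable (fun x => F.eval x) (ν i : Measure ℝ)) ∧
        ∫ x, x ∂(ν i : Measure ℝ) = 0 ∧
        HasSum (fun m : ℕ => √(N i:ℝ) / (4 * Real.pi ^ 2) * (w i * η i * (starRingEnd ℂ) (lam i m)).re ^ 2 * (m : ℝ) ^ (-(3 / 2) : ℝ))
          (∫ x, x ^ 2 ∂(ν i : Measure ℝ))) ∧
      ∀ (a b : Fin k → ℕ → ℝ) (δ B : ℝ), 0 < δ → (∀ i, 0 < a i 0) → (∀ i n, a i n + δ ≤ a i (n + 1)) →
        (∀ i n, 0 ≤ b i n ∧ b i n ≤ B * a i n) →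
        ∀ᵐ α : Fin k → ℝ, (∀ i, 0 < α i) → ∀ F : (Fin k → ℝ) → ℝ, Continuous F →
          (∃ C : ℝ, ∀ x, |F x| ≤ C * (1 + ‖x‖ ^ 2)) →
          Integrable F (Measure.pi fun i : Fin k => (ν i : Measure ℝ)) ∧
          Tendsto (fun M : ℕ => (∑ n ∈ Finset.range M, F (fun i =>
            (w i * ∑ j ∈ Finset.Icc 1 ⌊(α i * a i n + b i n) ^ 2⌋₊, lam i j).re /
              ((α i * a i n + b i n) ^ 2) ^ (1 / 4 : ℝ))) / (M:ℝ)) atTop
            (𝓝 (∫ x, F x ∂(Measure.pi fun i : Fin k => (ν i : Measure ℝ)))) := by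
  have h1 := fun i => nf_gen (h i) (hκ i) (w i)
  choose ν n1 n2 n3 n4 _ n6 using h1
  refine ⟨ν, fun i => ⟨(n3 i).int, n1 i, n2 i⟩, ?_⟩
  intro a b δ B hδ h0 hg hb
  have hN0 : ∀ i, (0:ℝ) < N i := fun i => Nat.cast_pos.2 (Nat.pos_of_ne_zero (NeZero.ne (N i)))
  have hc : ∀ i, 0 < 2/√(N i:ℝ) := fun i => by
    have := Real.sqrt_pos.2 (hN0 i)
    positivity
  filter_upwards [dil_scale n6 n4 hc hδ h0 hg hb] with α hα hα0 F hF hC
  obtain ⟨g1, g2⟩ := hα hα0 F hF hC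
  refine ⟨g1, g2.congr fun M => ?_⟩
  congr 1
  refine Finset.sum_congr rfl fun n _ => ?_
  congr 1
  funext i
  refine EN_eq (N i) (w i) (lam i) ?_
  have ha : ∀ n, 0 < a i n := fun n => by
    induction n with
    | zero => exact h0 i
    | succ n ih => linarith [hg i n]
  have := mul_pos (hα0 i) (ha n)
  linarith [(hb i n).1]

end nf

section dc

open Pool.Agent.H383.Div (E2 ad ad_zero wd wd_Wt vor Dx Ed_quad)
open Pool.Agent.H383.Gauss (En)
open Pool.Agent.H383.Circ (ag_Bd ag_zero wg_Wt En_Sand)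
open Pool.Agent.R306.Circ (P_En En_meas)
open Pool.Agent.H387R2.Vor (Ed Del)

/-- **the divisor problem and the circle problem along dilated sequences** -/
theorem dc_dil : ∃ (ν ρ : ProbabilityMeasure ℝ) (G : ℂ → ℂ),
    Differentiable ℂ G ∧ (∀ x : ℝ, 0 ≤ (G x).re ∧ (G x).im = 0) ∧
    (ν : Measure ℝ) = volume.withDensity (fun x : ℝ => ENNReal.ofReal (G x).re) ∧
    (∀ u v : ℝ, u < v → 0 < (ν : Measure ℝ) (Set.Ioo u v)) ∧
    ∫ x, x ∂(ν : Measure ℝ) = 0 ∧
    HasSum (fun m : ℕ => (m.divisors.card : ℝ) ^ 2 / (4 * Real.pi ^ 2) * (m : ℝ) ^ (-(3 / 2) : ℝ)) (∫ x, x ^ 2 ∂(ν : Measure ℝ)) ∧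
    (∀ x : ℝ, (ρ : Measure ℝ) {x} = 0) ∧ (∀ u v : ℝ, u < v → 0 < (ρ : Measure ℝ) (Set.Ioo u v)) ∧
    ∀ (k : ℕ) (τ : Fin k → Bool) (a b : Fin k → ℕ → ℝ) (δ B : ℝ), 0 < δ → (∀ i, 0 < a i 0) →
      (∀ i n, a i n + δ ≤ a i (n + 1)) → (∀ i n, 0 ≤ b i n ∧ b i n ≤ B * a i n) →
      ∀ᵐ α : Fin k → ℝ, (∀ i, 0 < α i) → ∀ X : ℕ → Fin k → ℝ, (∀ n i, X n i =
          if τ i then Del ((α i * a i n + b i n) ^ 2) / √(α i * a i n + b i n)
          else Pool.Agent.R306.Circ.P (α i * a i n + b i n) / √(α i * a i n + b i n)) →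
        (∀ F : (Fin k → ℝ) → ℝ, Continuous F → (∃ C : ℝ, ∀ x, |F x| ≤ C * (1 + ‖x‖ ^ 2)) →
          Integrable F (Measure.pi fun i : Fin k => ((if τ i then ν else ρ : ProbabilityMeasure ℝ) : Measure ℝ)) ∧
          Tendsto (fun M : ℕ => (∑ n ∈ Finset.range M, F (X n)) / (M:ℝ)) atTop
            (𝓝 (∫ x, F x ∂(Measure.pi fun i : Fin k => ((if τ i then ν else ρ : ProbabilityMeasure ℝ) : Measure ℝ))))) ∧
        (∀ u : Fin k → ℝ, Tendsto (fun M : ℕ => (((Finset.range M).filter fun n => ∀ i, X n i ≤ u i).card : ℝ) / M) atTop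
          (𝓝 (∏ i, ((if τ i then ν else ρ : ProbabilityMeasure ℝ) : Measure ℝ).real (Iic (u i))))) := by
  obtain ⟨ν, G, h1, h2, h3, h4, h5, h6, -, h8, -, h10⟩ := dv_gen
  obtain ⟨ρ, r1, r2, -, r4⟩ := Run7.h113.MT.law_char
  obtain ⟨C0, hC0, hS⟩ := En_Sand
  have hXc := Cx2.of ag_Bd ag_zero wg_Wt hC0 hS En_meas
  refine ⟨ν, ρ, G, h1, h2, h3, h4, h5, h6, r1, r2, ?_⟩
  intro k τ a b δ B hδ h0 hg hb
  have hν0 : ∀ x : ℝ, (ν : Measure ℝ) {x} = 0 := by
    intro x
    rw [h3]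
    exact withDensity_absolutelyContinuous _ _ (measure_singleton x)
  have key := dil_scale (μ := fun i => if τ i then ν else ρ) (E := fun i => if τ i then E2 else En)
    (af := fun i => if τ i then ad else Pool.Agent.H383.Circ.ag) (φ := fun i => if τ i then Real.pi/4 else 3 * Real.pi/4)
    (fun i => by by_cases ht : τ i <;> simp only [ht, if_true, if_false, Bool.false_eq_true] <;> assumption)
    (fun i => by by_cases ht : τ i <;> simp only [ht, if_true, if_false, Bool.false_eq_true] <;> assumption)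
    (c := fun i => if τ i then 2 else 1) (fun i => by split_ifs <;> norm_num) hδ h0 hg hb
  filter_upwards [key] with α hα hα0 X hX
  have hXe : ∀ n, (fun i => (if τ i then E2 else En) ((if τ i then 2 else 1) * (α i * a i n + b i n))) = X n := by
    intro n
    funext i
    rw [hX]
    have ha : ∀ n, 0 < a i n := fun n => by
      induction n with
      | zero => exact h0 i
      | succ n ih => linarith [hg i n]
    have hy : 0 < α i * a i n + b i n := by
      have := mul_pos (hα0 i) (ha n)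
      linarith [(hb i n).1]
    split_ifs with ht
    · unfold E2 Ed
      rw [show 2 * (α i * a i n + b i n) / 2 = α i * a i n + b i n by ring]
    · rw [one_mul, ← P_En]
  have hl : ∀ F : (Fin k → ℝ) → ℝ, Continuous F → (∃ C : ℝ, ∀ x, |F x| ≤ C * (1 + ‖x‖ ^ 2)) →
      Integrable F (Measure.pi fun i : Fin k => ((if τ i then ν else ρ : ProbabilityMeasure ℝ) : Measure ℝ)) ∧
      Tendsto (fun M : ℕ => (∑ n ∈ Finset.range M, F (X n)) / (M:ℝ)) atTop
        (𝓝 (∫ x, F x ∂(Measure.pi fun i : Fin k => ((if τ i then ν else ρ : ProbabilityMeasure ℝ) : Measure ℝ)))) := by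
    intro F hF hC
    have h9 := hα hα0 F hF hC
    simp only [hXe] at h9
    exact h9
  refine ⟨hl, fun u => ?_⟩
  refine freq_of_lawm (fun j x => ?_) (fun g hg' hgb => ?_) u
  · split_ifs
    · exact hν0 x
    · exact r1 x
  · obtain ⟨Bd, hBd⟩ := hgb
    have hBd0 : 0 ≤ Bd := (abs_nonneg _).trans (hBd 0)
    exact (hl g hg' ⟨Bd, fun x => by
      have h7 := hBd x
      nlinarith [sq_nonneg ‖x‖]⟩).2

end dc

end Run7.h113.GX
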